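import Pool.Agent.Q79.SM.Gg
import Pool.Agent.Q35.EO.Stm

/-!
# Project EO of helper35: job EO-FIB (decomposition in fibres)
-/

set_option autoImplicit false

namespace Pool.Agent.Q176.EO

open Finset Function MvPolynomial NumberField
open Pool.Agent.Q35.MM (bx dg mem_bx S_DB)
open Pool.Agent.Q35.SM (Cof Vs Var Pol ev pv MH Opn Cut Twr UU S_C)
open Pool.Agent.Q35.EO

section

variable {K : Type} [Field K] {ι : Type} [Fintype ι] [DecidableEq ι] {n : ι → ℕ}

/-- the value of the form in terms of the coefficients of the linear form -/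
theorem ev_lf {k : ℕ} (c : Fin k → Cof K n) (x : Vs K n) (i : ι) (t : Fin k)
    (y : Fin (n i + 1) → K) :
    ∑ a, Pool.Agent.Q35.LO.lf c x i t a * y a = ev K (c t) (update x i y) := by
  have h1 := LinearMap.pi_apply_eq_sum_univ (Pool.Agent.Q79.SM.lf (c t) x i) y
  rw [← Pool.Agent.Q79.SM.lf_apply, h1]
  refine sum_congr rfl fun a _ => ?_
  rw [smul_eq_mul, mul_comm]
  unfold Pool.Agent.Q35.LO.lf
  rw [Pool.Agent.Q79.SM.lf_apply]
  congr 3
  funext b
  by_cases h : b = a
  · subst h
    rw [Pi.single_eq_same, if_pos rfl]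
  · rw [Pi.single_eq_of_ne h, if_neg (Ne.symm h)]

theorem VV_eq {k : ℕ} (c : Fin k → Cof K n) (x : Vs K n) (i : ι) :
    Pool.Agent.Q35.LO.VV c x i = Pool.Agent.Q79.SM.VV c x i := by
  ext y
  rw [Pool.Agent.Q79.SM.mem_VV]
  change (∀ t, ∑ a, Pool.Agent.Q35.LO.lf c x i t a * y a = 0) ↔ _
  refine forall_congr' fun t => ?_
  rw [ev_lf]

end

section

variable {K : Type} [Field K] [NumberField K]

theorem bxg_sub {I : Ideal (𝓞 K)} {t : (K →+* ℂ) → ℝ} {c0 : ℝ} (_h0 : 1 ≤ c0) (ht : Shp c0 t)
    (m b : ℕ) : bxg K I t m b ⊆ bx K m (⌈c0⌉₊ * b) := by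
  intro x hx
  rw [mem_bxg] at hx
  rw [mem_bx]
  intro a
  obtain ⟨⟨y, -, hy⟩, hφ⟩ := hx a
  refine ⟨?_, fun φ => (hφ φ).trans ?_⟩
  · rw [← hy]
    exact y.isIntegral_coe
  · push_cast
    refine mul_le_mul_of_nonneg_right ((ht φ).2.trans (Nat.le_ceil c0)) (by positivity)

end

open Classical in
theorem fib (hC : Pool.Agent.Q35.SM.S_C) (hDB : Pool.Agent.Q35.MM.S_DB) :
    Pool.Agent.Q35.EO.S_FIB := by
  intro K _ _ ι _ _ n k r c G c0 hcard hk hkr hn hT hc0
  have hr1 : 1 ≤ r := hk.trans hkr
  obtain ⟨C, hC0, hC1⟩ := Pool.Agent.Q79.SM.bads hC K ι n r hr1 hn G hT.hom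
  set q : ℕ := ⌈c0⌉₊ with hq
  have hq1 : 1 ≤ q := by
    have : (1 : ℝ) ≤ q := hc0.trans (Nat.le_ceil c0)
    exact_mod_cast this
  have hqR : (1 : ℝ) ≤ q := by exact_mod_cast hq1
  set e : ι → ℝ := fun l => 3 ^ (dg K * (n l + 1)) * ((bx K (n l + 1) 1).card : ℝ) *
    (q : ℝ) ^ (dg K * (n l + 1)) with he
  have he1 : ∀ l, 1 ≤ e l := by
    intro l
    have h1 : (1 : ℝ) ≤ 3 ^ (dg K * (n l + 1)) := one_le_pow₀ (by norm_num)
    have h2 : (1 : ℝ) ≤ ((bx K (n l + 1) 1).card : ℝ) := by
      exact_mod_cast card_pos.mpr ⟨0, Pool.Agent.Q92.MM.zero_mem_bx _ _⟩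
    have h3 : (1 : ℝ) ≤ (q : ℝ) ^ (dg K * (n l + 1)) := one_le_pow₀ hqR
    exact one_le_mul_of_one_le_of_one_le (one_le_mul_of_one_le_of_one_le h1 h2) h3
  have hE1 : 1 ≤ ∏ l, e l := Pool.Agent.Q92.MM.one_le_prod_real _ e he1
  refine ⟨(1 + C) * ∏ l, e l, mul_nonneg (by linarith) (by linarith), ?_⟩
  intro I t hI i b hb
  have hne : ∀ J : Finset ι, i ∉ J → J ≠ univ := by
    rintro J hJ rfl
    exact hJ (mem_univ i)
  have hXm : ∀ x ∈ XX G I t i b, (∀ l, l ≠ i → x l ∈ bxg K (I l) (t l) (n l + 1) (b l)) ∧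
      x i = 0 ∧ ∀ S : Finset ι, i ∉ S → Opn K (G S) x := by
    intro x hx
    unfold XX at hx
    rw [mem_filter, Fintype.mem_piFinset] at hx
    refine ⟨fun l hl => ?_, ?_, hx.2⟩
    · have := hx.1 l
      rwa [if_neg hl] at this
    · have := hx.1 i
      rwa [if_pos rfl, mem_singleton] at this
  have hFm : ∀ P : Vs K n, P ∈ FFg c G I t b ↔
      (∀ l, P l ∈ bxg K (I l) (t l) (n l + 1) (b l)) ∧ UU c G P := by
    intro P
    unfold FFg
    rw [mem_filter, Fintype.mem_piFinset]
  refine ⟨?_, ?_, ?_⟩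
  · -- the bijection
    have hmap : ∀ P ∈ FFg c G I t b, update P i 0 ∈ XX G I t i b := by
      intro P hP
      rw [hFm] at hP
      unfold XX
      rw [mem_filter, Fintype.mem_piFinset]
      refine ⟨fun l => ?_, fun S hS => ?_⟩
      · by_cases hl : l = i
        · subst hl
          rw [if_pos rfl, update_self]
          exact mem_singleton_self _
        · rw [if_neg hl, update_of_ne hl]
          exact hP.1 l
      · rw [Pool.Agent.Q79.SM.opn_update (hT.dep S) hS]
        exact hP.2.2 S (hne S hS)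
    rw [card_eq_sum_card_fiberwise (f := fun P : Vs K n => update P i 0)
      (t := XX G I t i b) (fun P hP => hmap P hP)]
    refine sum_congr rfl fun x hx => ?_
    obtain ⟨hx1, hx2, hx3⟩ := hXm x hx
    unfold nuU
    have hx0 : update x i 0 = x := by
      rw [← hx2, update_eq_self]
    refine card_bij' (fun P _ => P i) (fun y _ => update x i y) ?_ ?_ ?_ ?_
    · intro P hP
      rw [mem_filter, hFm] at hP
      obtain ⟨⟨hP1, hP2⟩, hP3⟩ := hP
      rw [mem_filter]
      refine ⟨hP1 i, ?_⟩
      rw [← hP3, update_idem, update_eq_self]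
      exact hP2
    · intro y hy
      rw [mem_filter] at hy
      rw [mem_filter, hFm]
      refine ⟨⟨fun l => ?_, hy.2⟩, ?_⟩
      · by_cases hl : l = i
        · subst hl
          rw [update_self]
          exact hy.1
        · rw [update_of_ne hl]
          exact hx1 l hl
      · rw [update_idem]
        exact hx0
    · intro P hP
      rw [mem_filter] at hP
      change update x i (P i) = P
      rw [← hP.2, update_idem, update_eq_self]
    · intro y hy
      change update x i y i = y
      rw [update_self]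
  · -- the number of the fibres
    have hsub : XX G I t i b ⊆ Fintype.piFinset fun l =>
        if l = i then {0} else bxg K (I l) (t l) (n l + 1) (b l) := by
      unfold XX
      exact filter_subset _ _
    have h0 : ((XX G I t i b).card : ℝ) ≤ ((Fintype.piFinset fun l =>
        if l = i then ({0} : Finset (Fin (n l + 1) → K)) else
          bxg K (I l) (t l) (n l + 1) (b l)).card : ℝ) := by
      exact_mod_cast card_le_card hsub
    refine h0.trans ?_
    rw [Fintype.card_piFinset, Nat.cast_prod, ← mul_prod_erase univ _ (mem_univ i), if_pos rfl,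
      card_singleton, Nat.cast_one, one_mul]
    have h1 : ∀ l ∈ univ.erase i, (((if l = i then ({0} : Finset (Fin (n l + 1) → K)) else
        bxg K (I l) (t l) (n l + 1) (b l)).card : ℕ) : ℝ) ≤
          e l * (b l : ℝ) ^ (dg K * (n l + 1)) := by
      intro l hl
      rw [if_neg (ne_of_mem_erase hl)]
      have h2 := Pool.Agent.Q92.MM.box_le hDB (⊤ : Submodule K (Fin (n l + 1) → K)) (r := n l + 1)
        (by rw [finrank_top, Module.finrank_fin_fun]) le_rfl
        (show 1 ≤ q * b l from Nat.mul_pos hq1 (hb l))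
      rw [filter_true_of_mem (fun _ _ => Submodule.mem_top)] at h2
      have h3 : ((bxg K (I l) (t l) (n l + 1) (b l)).card : ℝ) ≤
          ((bx K (n l + 1) (q * b l)).card : ℝ) := by
        exact_mod_cast card_le_card (bxg_sub hc0 (hI l) _ _)
      refine h3.trans (h2.trans (le_of_eq ?_))
      rw [he]
      push_cast
      rw [mul_pow]
      ring
    calc _ ≤ ∏ l ∈ univ.erase i, e l * (b l : ℝ) ^ (dg K * (n l + 1)) :=
          prod_le_prod (fun _ _ => by positivity) h1
      _ = (∏ l ∈ univ.erase i, e l) * ∏ l ∈ univ.erase i, (b l : ℝ) ^ (dg K * (n l + 1)) :=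
          prod_mul_distrib
      _ ≤ (∏ l, e l) * ∏ l ∈ univ.erase i, (b l : ℝ) ^ (dg K * (n l + 1)) :=
          mul_le_mul_of_nonneg_right (Pool.Agent.Q92.MM.prod_le_univ _ e he1)
            (prod_nonneg fun _ _ => by positivity)
      _ ≤ _ := by
          refine mul_le_mul_of_nonneg_right ?_ (prod_nonneg fun _ _ => by positivity)
          refine le_mul_of_one_le_left (by linarith) (by linarith)
  · -- one fibre
    intro x hx
    obtain ⟨hx1, hx2, hx3⟩ := hXm x hx
    refine ⟨?_, ?_⟩
    · have h1 := Pool.Agent.Q79.SM.finrank_VV c x i ((hT.base i K x).1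
        (hx3 _ (notMem_erase i _)))
      rw [VV_eq]
      omega
    intro B hB
    refine ⟨?_, ?_⟩
    · unfold nuU nug
      refine card_le_card fun y hy => ?_
      rw [mem_filter] at hy ⊢
      refine ⟨hy.1, ?_⟩
      rw [VV_eq, Pool.Agent.Q79.SM.mem_VV]
      exact hy.2.1
    · let T : Finset (Finset ι) := univ.filter fun I => i ∉ I ∧ I.card + 2 ≤ Fintype.card ι
      have h1 := hC1 i T x (fun J hJ => by
        obtain ⟨-, hJ1, hJ2⟩ := mem_filter.1 hJ
        exact (hT.step J hJ2 K x).1 (hx3 J hJ1) i hJ1) (q * B) (Nat.mul_pos hq1 hB)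
      have hsub : (bxg K (I i) (t i) (n i + 1) B).filter (fun y => y ∈
          Pool.Agent.Q35.LO.VV c x i) ⊆
          ((bxg K (I i) (t i) (n i + 1) B).filter fun y => UU c G (update x i y)) ∪
          ((bx K (n i + 1) (q * B)).filter fun y =>
            ∃ I ∈ T, ¬ Opn K (G (insert i I)) (update x i y)) := by
        intro y hy
        rw [mem_filter, VV_eq, Pool.Agent.Q79.SM.mem_VV] at hy
        obtain ⟨hy1, hy2⟩ := hy
        rw [mem_union]
        by_cases hU : UU c G (update x i y)
        · left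
          exact mem_filter.2 ⟨hy1, hU⟩
        · right
          refine mem_filter.2 ⟨bxg_sub hc0 (hI i) _ _ hy1, ?_⟩
          unfold UU at hU
          push Not at hU
          obtain ⟨J, hJ1, hJ2⟩ := hU hy2
          have hiJ : i ∈ J := by
            by_contra hiJ
            apply hJ2
            rw [Pool.Agent.Q79.SM.opn_update (hT.dep J) hiJ]
            exact hx3 J hiJ
          refine ⟨J.erase i, mem_filter.2 ⟨mem_univ _, notMem_erase _ _, ?_⟩, ?_⟩
          · rw [card_erase_of_mem hiJ]
            have h1 : J.card < Fintype.card ι := by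
              rw [← card_univ]
              exact card_lt_card (ssubset_univ_iff.2 hJ1)
            have h2 : 0 < J.card := card_pos.2 ⟨i, hiJ⟩
            omega
          · rw [insert_erase hiJ]
            exact hJ2
      have h2 := (card_le_card hsub).trans (card_union_le _ _)
      have h3 : (((bxg K (I i) (t i) (n i + 1) B).filter (fun y => y ∈
          Pool.Agent.Q35.LO.VV c x i)).card : ℝ) ≤
          (((bxg K (I i) (t i) (n i + 1) B).filter fun y => UU c G (update x i y)).card : ℝ) +
          (((bx K (n i + 1) (q * B)).filter fun y =>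
            ∃ I ∈ T, ¬ Opn K (G (insert i I)) (update x i y)).card : ℝ) := by
        exact_mod_cast h2
      unfold nuU nug
      refine h3.trans (add_le_add le_rfl (h1.trans ?_))
      push_cast
      rw [mul_pow, ← mul_assoc]
      refine mul_le_mul_of_nonneg_right ?_ (by positivity)
      have h4 : (q : ℝ) ^ (dg K * (n i + 1 - r)) ≤ e i := by
        have h5 : (q : ℝ) ^ (dg K * (n i + 1 - r)) ≤ (q : ℝ) ^ (dg K * (n i + 1)) :=
          pow_le_pow_right₀ hqR (Nat.mul_le_mul_left _ (Nat.sub_le _ _))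
        have h6 : (1 : ℝ) ≤ 3 ^ (dg K * (n i + 1)) * ((bx K (n i + 1) 1).card : ℝ) := by
          have h1 : (1 : ℝ) ≤ 3 ^ (dg K * (n i + 1)) := one_le_pow₀ (by norm_num)
          have h2 : (1 : ℝ) ≤ ((bx K (n i + 1) 1).card : ℝ) := by
            exact_mod_cast card_pos.mpr ⟨0, Pool.Agent.Q92.MM.zero_mem_bx _ _⟩
          exact one_le_mul_of_one_le_of_one_le h1 h2
        refine h5.trans ?_
        rw [he]
        exact le_mul_of_one_le_left (by positivity) h6
      have h7 : e i ≤ ∏ l, e l := by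
        rw [← mul_prod_erase univ _ (mem_univ i)]
        refine le_mul_of_one_le_right (by linarith [he1 i]) ?_
        exact Pool.Agent.Q92.MM.one_le_prod_real _ e he1
      calc C * (q : ℝ) ^ (dg K * (n i + 1 - r)) ≤ C * ∏ l, e l :=
            mul_le_mul_of_nonneg_left (h4.trans h7) hC0
        _ ≤ (1 + C) * ∏ l, e l := by nlinarith

end Pool.Agent.Q176.EO
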