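import Pool.Agent.Q35.EO.Stm

/-!
# Project EO of helper35: job EO-SUM2 (summation over the scales with weights)
-/

set_option autoImplicit false

namespace Pool.Agent.Q176.EO

open Finset Function

section

variable {ι : Type} [Fintype ι] [DecidableEq ι]

/-- the exponents outside `j` -/
def gg (B0 : ℕ) (J : Finset ι) (j : ι) {K : ℕ} (f : {l : ι // l ∈ J.erase j} → Fin K) (l : ι) : ℕ :=
  B0 + if h : l ∈ J.erase j then (f ⟨l, h⟩ : ℕ) else 0

/-- the weighted sum of the exponents outside `j` -/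
noncomputable def WW (w : ι → ℝ) (B0 : ℕ) (J : Finset ι) (j : ι) {K : ℕ}
    (f : {l : ι // l ∈ J.erase j} → Fin K) : ℝ :=
  ∑ l ∈ univ.erase j, w l * (gg B0 J j f l : ℝ)

/-- the exponents -/
noncomputable def ee (w : ι → ℝ) (B0 : ℕ) (L : ℝ) (J : Finset ι) (j : ι) {K : ℕ}
    (f : {l : ι // l ∈ J.erase j} → Fin K) : ι → ℕ :=
  update (gg B0 J j f) j ⌊(L - WW w B0 J j f) / w j⌋₊

omit [Fintype ι] in
lemma gg_le (B0 : ℕ) (J : Finset ι) (j : ι) {K : ℕ} (f : {l : ι // l ∈ J.erase j} → Fin K)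
    (l : ι) : gg B0 J j f l ≤ B0 + K := by
  unfold gg
  split_ifs with h
  · have := (f ⟨l, h⟩).isLt
    omega
  · omega

omit [Fintype ι] in
lemma le_gg (B0 : ℕ) (J : Finset ι) (j : ι) {K : ℕ} (f : {l : ι // l ∈ J.erase j} → Fin K)
    (l : ι) : B0 ≤ gg B0 J j f l := Nat.le_add_right _ _

lemma WW_le (w : ι → ℝ) (hw : ∀ l, 0 < w l) (B0 : ℕ) (J : Finset ι) (j : ι) {K : ℕ}
    (f : {l : ι // l ∈ J.erase j} → Fin K) :
    WW w B0 J j f ≤ (∑ l ∈ univ.erase j, w l) * ((B0 : ℝ) + K) := by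
  unfold WW
  rw [sum_mul]
  refine sum_le_sum fun l _ => mul_le_mul_of_nonneg_left ?_ (hw l).le
  exact_mod_cast gg_le B0 J j f l

lemma sum_gg_le (B0 : ℕ) (J : Finset ι) (j : ι) {K : ℕ}
    (f : {l : ι // l ∈ J.erase j} → Fin K) :
    ∑ l ∈ univ.erase j, gg B0 J j f l ≤ Fintype.card ι * (B0 + K) := by
  refine le_trans (sum_le_sum fun l _ => gg_le B0 J j f l) ?_
  rw [sum_const, smul_eq_mul]
  refine Nat.mul_le_mul_right _ ?_
  rw [card_erase_of_mem (mem_univ j), card_univ]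
  omega

omit [Fintype ι] in
lemma gg_mem (B0 : ℕ) (J : Finset ι) (j : ι) {K : ℕ} (f : {l : ι // l ∈ J.erase j} → Fin K)
    (l : ι) (h : l ∈ J.erase j) : gg B0 J j f l = B0 + (f ⟨l, h⟩ : ℕ) := by
  unfold gg
  rw [dif_pos h]

omit [Fintype ι] in
lemma gg_notMem (B0 : ℕ) (J : Finset ι) (j : ι) {K : ℕ} (f : {l : ι // l ∈ J.erase j} → Fin K)
    (l : ι) (h : l ∉ J.erase j) : gg B0 J j f l = B0 := by
  unfold gg
  rw [dif_neg h]
  rfl

lemma ee_ne (w : ι → ℝ) (B0 : ℕ) (L : ℝ) (J : Finset ι) (j : ι) {K : ℕ}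
    (f : {l : ι // l ∈ J.erase j} → Fin K) (l : ι) (h : l ≠ j) :
    ee w B0 L J j f l = gg B0 J j f l := by
  unfold ee
  rw [update_of_ne h]

lemma ee_self (w : ι → ℝ) (B0 : ℕ) (L : ℝ) (J : Finset ι) (j : ι) {K : ℕ}
    (f : {l : ι // l ∈ J.erase j} → Fin K) :
    ee w B0 L J j f j = ⌊(L - WW w B0 J j f) / w j⌋₊ := by
  unfold ee
  rw [update_self]

lemma sum_ee (w : ι → ℝ) (B0 : ℕ) (L : ℝ) (J : Finset ι) (j : ι) {K : ℕ}
    (f : {l : ι // l ∈ J.erase j} → Fin K) :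
    ∑ l, w l * (ee w B0 L J j f l : ℝ) =
      WW w B0 J j f + w j * (⌊(L - WW w B0 J j f) / w j⌋₊ : ℝ) := by
  rw [← sum_erase_add univ _ (mem_univ j), ee_self]
  congr 1
  unfold WW
  refine sum_congr rfl fun l hl => ?_
  rw [ee_ne w B0 L J j f l (ne_of_mem_erase hl)]

end

lemma pow_rpow_aux {q : ℝ} (hq : 0 < q) (e d : ℕ) (w : ℝ) :
    ((q ^ e) ^ d) ^ w = q ^ ((d : ℝ) * (w * e)) := by
  rw [← pow_mul, ← Real.rpow_natCast, ← Real.rpow_mul hq.le]
  congr 1
  push_cast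
  ring

lemma core2 {ι : Type} [Fintype ι] [DecidableEq ι] {X : Type} {H : ι → X → ℝ} {P : X → Prop}
    {r : ι → ℕ} {w : ι → ℝ} {a : ℝ} {J : Finset ι} {d : ℕ} {j : ι} {η c0 C : ℝ} {A B0 : ℕ}
    (hr : ∀ l, 1 ≤ r l) (hw : ∀ l, 0 < w l)
    (hra : ∀ l ∈ J, (r l : ℝ) = a * w l) (hj : j ∈ J) (hd : 1 ≤ d) (_hη : 0 < η) (hc0 : 0 < c0)
    (hH : ∀ l x, 1 ≤ H l x) (hfin : ∀ B : ℝ, {x | P x ∧ ∏ l, H l x ^ w l ≤ B}.Finite)
    (hS : ∀ b : ι → ℕ, (∀ l, B0 ≤ b l) → (∀ l, 1 ≤ b l) →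
      C * (∏ l ∈ univ.erase j, (b l : ℝ)) ^ A ≤ b j →
      ∃ S : Finset X, (∀ x ∈ S, P x ∧ ∀ l, (η * b l) ^ d ≤ H l x ∧ H l x ≤ (b l : ℝ) ^ d) ∧
        c0 * ∏ l, (b l : ℝ) ^ (d * r l) ≤ (S.card : ℝ))
    (q : ℕ) (hq : 2 ≤ q) (hqη : 1 < q * η) (c : ℕ) (hc : C ≤ (q : ℝ) ^ c) (L : ℝ) (K : ℕ)
    (hLK : w j * ((B0 : ℝ) + c + A * (Fintype.card ι * (B0 + K))) +
      (∑ l ∈ univ.erase j, w l) * (B0 + K) ≤ L) :
    c0 * (K : ℝ) ^ (J.card - 1) *
        (q : ℝ) ^ ((d : ℝ) * (a * (L - (w j + B0 * ∑ l, w l)))) ≤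
      (({x | P x ∧ ∏ l, H l x ^ w l ≤ (q : ℝ) ^ ((d : ℝ) * L)}.ncard : ℕ) : ℝ) := by
  classical
  have hq1 : (1 : ℝ) ≤ q := by exact_mod_cast le_trans (by norm_num) hq
  have hq0 : (0 : ℝ) < q := lt_of_lt_of_le one_pos hq1
  have hqn : 0 < q := by omega
  have hwj := hw j
  have ha : 0 < a := by
    have h1 := hra j hj
    have h2 : (1 : ℝ) ≤ r j := by exact_mod_cast hr j
    by_contra h
    push Not at h
    nlinarith
  have hWs : 0 ≤ ∑ l ∈ univ.erase j, w l := sum_nonneg fun l _ => (hw l).le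
  -- the exponents satisfy the conditions
  have hWL : ∀ f : {l : ι // l ∈ J.erase j} → Fin K,
      w j * ((B0 : ℝ) + c + A * (Fintype.card ι * (B0 + K))) ≤ L - WW w B0 J j f := by
    intro f
    have h1 := WW_le w hw B0 J j f
    linarith
  have hWL0 : ∀ f : {l : ι // l ∈ J.erase j} → Fin K, 0 ≤ (L - WW w B0 J j f) / w j := by
    intro f
    refine div_nonneg (le_trans ?_ (hWL f)) hwj.le
    positivity
  have hej : ∀ f : {l : ι // l ∈ J.erase j} → Fin K,
      B0 + c + A * (Fintype.card ι * (B0 + K)) ≤ ee w B0 L J j f j := by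
    intro f
    rw [ee_self]
    refine Nat.le_floor ?_
    rw [le_div_iff₀ hwj]
    refine le_trans (le_of_eq ?_) (hWL f)
    push_cast
    ring
  have hB0 : ∀ (f : {l : ι // l ∈ J.erase j} → Fin K) (l : ι), B0 ≤ ee w B0 L J j f l := by
    intro f l
    by_cases h : l = j
    · subst h
      exact le_trans (by omega) (hej f)
    · rw [ee_ne w B0 L J j f l h]
      exact le_gg _ _ _ _ _
  have hex : ∀ f : {l : ι // l ∈ J.erase j} → Fin K, ∃ S : Finset X,
      (∀ x ∈ S, P x ∧ ∀ l, (η * ((q ^ ee w B0 L J j f l : ℕ) : ℝ)) ^ d ≤ H l x ∧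
        H l x ≤ (((q ^ ee w B0 L J j f l : ℕ) : ℝ)) ^ d) ∧
        c0 * ∏ l, ((q ^ ee w B0 L J j f l : ℕ) : ℝ) ^ (d * r l) ≤ (S.card : ℝ) := by
    intro f
    refine hS (fun l => q ^ ee w B0 L J j f l) ?_ ?_ ?_
    · intro l
      exact le_trans (hB0 f l) (Nat.lt_pow_self (by omega)).le
    · intro l
      exact Nat.one_le_pow _ _ hqn
    · have h1 : ∏ l ∈ univ.erase j, ((q ^ ee w B0 L J j f l : ℕ) : ℝ) =
          (q : ℝ) ^ (∑ l ∈ univ.erase j, gg B0 J j f l) := by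
        rw [← prod_pow_eq_pow_sum]
        refine prod_congr rfl fun l hl => ?_
        rw [ee_ne w B0 L J j f l (ne_of_mem_erase hl)]
        push_cast
        rfl
      rw [h1, ← pow_mul]
      calc C * (q : ℝ) ^ ((∑ l ∈ univ.erase j, gg B0 J j f l) * A)
          ≤ (q : ℝ) ^ c * (q : ℝ) ^ ((∑ l ∈ univ.erase j, gg B0 J j f l) * A) :=
            mul_le_mul_of_nonneg_right hc (by positivity)
        _ = (q : ℝ) ^ (c + (∑ l ∈ univ.erase j, gg B0 J j f l) * A) := by rw [pow_add]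
        _ ≤ (q : ℝ) ^ ee w B0 L J j f j := by
            refine pow_le_pow_right₀ hq1 (le_trans ?_ (hej f))
            have h2 := Nat.mul_le_mul_right A (sum_gg_le B0 J j f)
            have h3 : Fintype.card ι * (B0 + K) * A =
              A * (Fintype.card ι * (B0 + K)) := mul_comm _ _
            omega
        _ = ((q ^ ee w B0 L J j f j : ℕ) : ℝ) := by push_cast; rfl
  choose S hS1 hS2 using hex
  -- the sums of the exponents
  have hup : ∀ f : {l : ι // l ∈ J.erase j} → Fin K,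
      ∑ l, w l * (ee w B0 L J j f l : ℝ) ≤ L := by
    intro f
    rw [sum_ee]
    have h1 := Nat.floor_le (hWL0 f)
    rw [le_div_iff₀ hwj] at h1
    linarith
  have hlo : ∀ f : {l : ι // l ∈ J.erase j} → Fin K,
      L - w j ≤ ∑ l, w l * (ee w B0 L J j f l : ℝ) := by
    intro f
    rw [sum_ee]
    have h1 := Nat.lt_floor_add_one ((L - WW w B0 J j f) / w j)
    rw [div_lt_iff₀ hwj] at h1
    linarith
  have hlo2 : ∀ f : {l : ι // l ∈ J.erase j} → Fin K,
      a * (L - (w j + B0 * ∑ l, w l)) ≤ ∑ l, (r l : ℝ) * (ee w B0 L J j f l : ℝ) := by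
    intro f
    have h1 : ∀ l ∈ (univ : Finset ι), a * (w l * (ee w B0 L J j f l : ℝ)) - a * (w l * B0) ≤
        (r l : ℝ) * (ee w B0 L J j f l : ℝ) := by
      intro l _
      by_cases hl : l ∈ J
      · rw [hra l hl]
        have : 0 ≤ a * (w l * B0) := mul_nonneg ha.le (mul_nonneg (hw l).le (by positivity))
        nlinarith
      · have hlj : l ≠ j := by
          rintro rfl
          exact hl hj
        have h2 : ee w B0 L J j f l = B0 := by
          rw [ee_ne w B0 L J j f l hlj]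
          exact gg_notMem _ _ _ _ _ (fun h => hl (mem_of_mem_erase h))
        rw [h2]
        have : 0 ≤ (r l : ℝ) * (B0 : ℝ) := by positivity
        linarith
    have h3 := sum_le_sum h1
    rw [sum_sub_distrib, ← mul_sum, ← mul_sum, ← sum_mul] at h3
    refine le_trans ?_ h3
    have h4 := mul_le_mul_of_nonneg_left (hlo f) ha.le
    have h5 : a * (L - (w j + B0 * ∑ l, w l)) = a * (L - w j) - a * ((∑ l, w l) * B0) := by ring
    rw [h5]
    linarith
  -- disjointness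
  have hdis : (↑(univ : Finset ({l : ι // l ∈ J.erase j} → Fin K)) :
      Set ({l : ι // l ∈ J.erase j} → Fin K)).PairwiseDisjoint S := by
    intro f _ f' _ hff
    have key : ∀ (f f' : {l : ι // l ∈ J.erase j} → Fin K) (l : {l : ι // l ∈ J.erase j}),
        f l < f' l → ∀ x, x ∈ S f → x ∈ S f' → False := by
      intro f f' l hl x hx hx'
      have h1 := ((hS1 f x hx).2 l.1).2
      have h2 := ((hS1 f' x hx').2 l.1).1
      rw [ee_ne w B0 L J j f l.1 (ne_of_mem_erase l.2), gg_mem B0 J j f l.1 l.2] at h1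
      rw [ee_ne w B0 L J j f' l.1 (ne_of_mem_erase l.2), gg_mem B0 J j f' l.1 l.2] at h2
      have h3 : (η * ((q ^ (B0 + (f' l : ℕ)) : ℕ) : ℝ)) ^ d ≤
        (((q ^ (B0 + (f l : ℕ)) : ℕ) : ℝ)) ^ d := le_trans h2 h1
      have h4 : ((q ^ (B0 + (f l : ℕ)) : ℕ) : ℝ) < η * ((q ^ (B0 + (f' l : ℕ)) : ℕ) : ℝ) := by
        have h5 : B0 + (f' l : ℕ) = (B0 + (f' l : ℕ) - 1) + 1 := by
          have : (f l : ℕ) < f' l := hl
          omega
        have h6 : B0 + (f l : ℕ) ≤ B0 + (f' l : ℕ) - 1 := by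
          have : (f l : ℕ) < f' l := hl
          omega
        rw [h5]
        push_cast
        calc (q : ℝ) ^ (B0 + (f l : ℕ)) ≤ (q : ℝ) ^ (B0 + (f' l : ℕ) - 1) :=
              pow_le_pow_right₀ hq1 h6
          _ < (q : ℝ) ^ (B0 + (f' l : ℕ) - 1) * (q * η) :=
              lt_mul_of_one_lt_right (by positivity) hqη
          _ = η * (q : ℝ) ^ (B0 + (f' l : ℕ) - 1 + 1) := by rw [pow_succ]; ring
      have h7 := pow_lt_pow_left₀ h4 (by positivity) (by omega : d ≠ 0)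
      exact absurd h3 (not_le.2 h7)
    rw [Function.onFun, Finset.disjoint_left]
    intro x hx hx'
    obtain ⟨l, hl⟩ := Function.ne_iff.1 hff
    rcases lt_or_gt_of_ne hl with h | h
    · exact key f f' l h x hx hx'
    · exact key f' f l h x hx' hx
  have hsub : ((univ.biUnion S : Finset X) : Set X) ⊆
      {x | P x ∧ ∏ l, H l x ^ w l ≤ (q : ℝ) ^ ((d : ℝ) * L)} := by
    intro x hx
    rw [Finset.mem_coe, mem_biUnion] at hx
    obtain ⟨f, -, hf⟩ := hx
    refine ⟨(hS1 f x hf).1, ?_⟩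
    calc ∏ l, H l x ^ w l ≤ ∏ l, (q : ℝ) ^ ((d : ℝ) * (w l * (ee w B0 L J j f l : ℝ))) := by
          refine prod_le_prod (fun l _ => Real.rpow_nonneg (le_trans zero_le_one (hH l x)) _)
            fun l _ => ?_
          have h1 := ((hS1 f x hf).2 l).2
          push_cast at h1
          refine (Real.rpow_le_rpow (le_trans zero_le_one (hH l x)) h1 (hw l).le).trans
            (le_of_eq ?_)
          exact pow_rpow_aux hq0 _ _ _
      _ = (q : ℝ) ^ (∑ l, (d : ℝ) * (w l * (ee w B0 L J j f l : ℝ))) :=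
          (Real.rpow_sum_of_pos hq0 _ _).symm
      _ ≤ (q : ℝ) ^ ((d : ℝ) * L) := by
          refine Real.rpow_le_rpow_of_exponent_le hq1 ?_
          rw [← mul_sum]
          exact mul_le_mul_of_nonneg_left (hup f) (by positivity)
  have hcard : ((univ.biUnion S).card : ℝ) ≤
      (({x | P x ∧ ∏ l, H l x ^ w l ≤ (q : ℝ) ^ ((d : ℝ) * L)}.ncard : ℕ) : ℝ) := by
    rw [← Set.ncard_coe_finset]
    exact_mod_cast Set.ncard_le_ncard hsub (hfin _)
  refine le_trans ?_ hcard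
  rw [card_biUnion (fun f hf f' hf' h => hdis hf hf' h)]
  push_cast
  have hle : ∀ f : {l : ι // l ∈ J.erase j} → Fin K,
      c0 * (q : ℝ) ^ ((d : ℝ) * (a * (L - (w j + B0 * ∑ l, w l)))) ≤ ((S f).card : ℝ) := by
    intro f
    refine le_trans ?_ (hS2 f)
    refine mul_le_mul_of_nonneg_left ?_ hc0.le
    have h1 : ∏ l, ((q ^ ee w B0 L J j f l : ℕ) : ℝ) ^ (d * r l) =
        (q : ℝ) ^ ((d : ℝ) * ∑ l, (r l : ℝ) * (ee w B0 L J j f l : ℝ)) := by
      rw [mul_sum, Real.rpow_sum_of_pos hq0]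
      refine prod_congr rfl fun l _ => ?_
      push_cast
      rw [← pow_mul, ← Real.rpow_natCast]
      congr 1
      push_cast
      ring
    rw [h1]
    refine Real.rpow_le_rpow_of_exponent_le hq1 ?_
    exact mul_le_mul_of_nonneg_left (hlo2 f) (by positivity)
  calc c0 * (K : ℝ) ^ (J.card - 1) * (q : ℝ) ^ ((d : ℝ) * (a * (L - (w j + B0 * ∑ l, w l))))
      = ∑ _f : {l : ι // l ∈ J.erase j} → Fin K,
          c0 * (q : ℝ) ^ ((d : ℝ) * (a * (L - (w j + B0 * ∑ l, w l)))) := by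
        rw [sum_const, card_univ, Fintype.card_fun, Fintype.card_fin, nsmul_eq_mul]
        have : Fintype.card {l : ι // l ∈ J.erase j} = J.card - 1 := by
          rw [Fintype.card_coe, card_erase_of_mem hj]
        rw [this]
        push_cast
        ring
    _ ≤ ∑ f, ((S f).card : ℝ) := sum_le_sum fun f _ => hle f

/-- Job EO-SUM2. -/
theorem sum2 : Pool.Agent.Q35.EO.S_SUM2 := by
  intro ι _ _ X H P r w a J d j η c0 C A B0 hr hw _ hra hj hd hη hc0 hH hfin hS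
  obtain ⟨q0, hq0⟩ := exists_nat_gt (1 / η)
  set q : ℕ := max q0 2 with hqdef
  have hq : 2 ≤ q := le_max_right _ _
  have hq1 : (1 : ℝ) < q := by exact_mod_cast (by omega : 1 < q)
  have hqp : (0 : ℝ) < q := by linarith
  have hqη : 1 < (q : ℝ) * η := by
    have h1 : 1 / η < q := lt_of_lt_of_le hq0 (by exact_mod_cast le_max_left _ _)
    rwa [div_lt_iff₀ hη] at h1
  obtain ⟨c, hc⟩ := pow_unbounded_of_one_lt C hq1
  have hwj := hw j
  have hWs : 0 ≤ ∑ l ∈ univ.erase j, w l := sum_nonneg fun l _ => (hw l).le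
  set Z : ℝ := w j * (A * Fintype.card ι) + ∑ l ∈ univ.erase j, w l with hZ
  have hZ0 : 0 ≤ Z := by positivity
  set E : ℝ := w j * ((B0 : ℝ) + c + A * (Fintype.card ι * B0)) +
    (∑ l ∈ univ.erase j, w l) * B0 with hE
  have hE0 : 0 ≤ E := by positivity
  have hlq : 0 < Real.log q := Real.log_pos hq1
  have hdR : (0 : ℝ) < d := by exact_mod_cast hd
  have hdl : 0 < d * Real.log q := by positivity
  set m : ℝ := w j + B0 * ∑ l, w l with hm
  set s : ℕ := J.card - 1 with hs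
  refine ⟨c0 * (1 / (4 * (Z + 1) * (d * Real.log q))) ^ s * (q : ℝ) ^ (-((d : ℝ) * (a * m))),
    Real.exp (d * Real.log q * (2 * E + 4 * (Z + 1))), by positivity, ?_⟩
  intro B hB
  have hBpos : 0 < B := lt_of_lt_of_le (Real.exp_pos _) hB
  set L : ℝ := Real.log B / (d * Real.log q) with hL
  have hlogB : d * Real.log q * (2 * E + 4 * (Z + 1)) ≤ Real.log B := by
    rw [Real.le_log_iff_exp_le hBpos]
    exact hB
  have hLlow : 2 * E + 4 * (Z + 1) ≤ L := by
    rw [hL, le_div_iff₀ hdl]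
    linarith
  have hL0 : 0 ≤ L := le_trans (by positivity) hLlow
  have hqL : (q : ℝ) ^ ((d : ℝ) * L) = B := by
    rw [Real.rpow_def_of_pos hqp]
    have h1 : Real.log q * ((d : ℝ) * L) = Real.log B := by
      rw [hL]
      field_simp
    rw [h1, Real.exp_log hBpos]
  set K : ℕ := ⌊L / (2 * (Z + 1))⌋₊ with hK
  have hKup : (K : ℝ) ≤ L / (2 * (Z + 1)) := Nat.floor_le (by positivity)
  have hKlo : L / (2 * (Z + 1)) < K + 1 := Nat.lt_floor_add_one _
  have hZK : Z * K ≤ L / 2 := by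
    rw [le_div_iff₀ (by positivity)] at hKup
    have : 0 ≤ (K : ℝ) := by positivity
    nlinarith
  have hLK : w j * ((B0 : ℝ) + c + A * (Fintype.card ι * (B0 + K))) +
      (∑ l ∈ univ.erase j, w l) * (B0 + K) ≤ L := by
    have h1 : w j * ((B0 : ℝ) + c + A * (Fintype.card ι * (B0 + K))) +
      (∑ l ∈ univ.erase j, w l) * (B0 + K) = E + Z * K := by
      rw [hE, hZ]
      ring
    rw [h1]
    linarith
  have hmain := core2 hr hw hra hj hd hη hc0 hH hfin hS q hq hqη c hc.le L K hLK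
  rw [hqL] at hmain
  refine le_trans ?_ hmain
  have hlogpos : 0 ≤ Real.log B := le_trans (by positivity) hlogB
  have hK2 : Real.log B * (1 / (4 * (Z + 1) * (d * Real.log q))) ≤ K := by
    have h1 : Real.log B * (1 / (4 * (Z + 1) * (d * Real.log q))) = L / (4 * (Z + 1)) := by
      rw [hL]
      field_simp
    have h2 : L / (2 * (Z + 1)) = 2 * (L / (4 * (Z + 1))) := by
      field_simp
      ring
    have h3 : 1 ≤ L / (4 * (Z + 1)) := by
      rw [le_div_iff₀ (by positivity)]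
      linarith
    rw [h1]
    linarith
  have hpow : (q : ℝ) ^ ((d : ℝ) * (a * (L - m))) =
      B ^ a * (q : ℝ) ^ (-((d : ℝ) * (a * m))) := by
    rw [← hqL, ← Real.rpow_mul hqp.le, ← Real.rpow_add hqp]
    congr 1
    ring
  calc c0 * (1 / (4 * (Z + 1) * (d * Real.log q))) ^ s * (q : ℝ) ^ (-((d : ℝ) * (a * m))) *
        B ^ a * Real.log B ^ s
      = c0 * (Real.log B * (1 / (4 * (Z + 1) * (d * Real.log q)))) ^ s *
          (B ^ a * (q : ℝ) ^ (-((d : ℝ) * (a * m)))) := by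
        rw [mul_pow]; ring
    _ ≤ c0 * (K : ℝ) ^ s * (B ^ a * (q : ℝ) ^ (-((d : ℝ) * (a * m)))) := by
        refine mul_le_mul_of_nonneg_right ?_ (by positivity)
        exact mul_le_mul_of_nonneg_left (pow_le_pow_left₀ (by positivity) hK2 _) hc0.le
    _ = _ := by rw [hpow]

end Pool.Agent.Q176.EO
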